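import Pool.Agent.W47.AM.Lower

/-!
# Almost all rational maps of degree `d ≥ 3` over `ℚ` have no rational preperiodic point

With a power saving, all but few endomorphisms of `P¹` of degree `d ≥ 3` over `ℚ` (ordered by
height) increase the height of every point of `P¹(ℚ)`; such a map has no rational preperiodic point.
-/

set_option autoImplicit false

namespace Pool.Agent.Results.MP_c076ed_nt.AlmostAllMaps

/-- The value at `v = (x, y)` of the binary form `f_0 y^d + f_1 x y^(d-1) + ... + f_d x^d`. -/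
def form {R : Type} [CommRing R] {d : ℕ} (f : Fin (d + 1) → ℤ) (v : R × R) : R :=
  ∑ i, (f i : R) * v.1 ^ (i : ℕ) * v.2 ^ (d - i)

/-- The self-map `v ↦ (F(v), G(v))` of `R × R` given by a pair of binary forms `φ = (F, G)`. -/
def act {R : Type} [CommRing R] {d : ℕ} (φ : (Fin (d + 1) → ℤ) × (Fin (d + 1) → ℤ))
    (v : R × R) : R × R := (form φ.1 v, form φ.2 v)

/-- The endomorphisms of `P¹` of degree `d` over `ℚ` and of height at most `H`: the pairs `(F, G)` of
binary forms of degree `d` with integral coefficients of absolute value at most `H`, such that no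
non unit divides all the coefficients of `F` and `G`, and without common zero in `ℂ²` except `0`.
(Every endomorphism corresponds to exactly two such pairs, `(F, G)` and `(-F, -G)`.) -/
def maps (d H : ℕ) : Set ((Fin (d + 1) → ℤ) × (Fin (d + 1) → ℤ)) :=
  {φ | (∀ i, |φ.1 i| ≤ H ∧ |φ.2 i| ≤ H) ∧
    (∀ e : ℤ, (∀ i, e ∣ φ.1 i ∧ e ∣ φ.2 i) → IsUnit e) ∧
    ∀ v : ℂ × ℂ, act φ v = 0 → v = 0}

/-- The map increases the height of every point of `P¹(ℚ)`: if `a, b` are coprime integers and the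
image of `(a : b)` is `(p : q)` with `p, q` coprime, then `max |a| |b| < max |p| |q|`. -/
def HeightIncreases {d : ℕ} (φ : (Fin (d + 1) → ℤ) × (Fin (d + 1) → ℤ)) : Prop :=
  ∀ a b p q k : ℤ, IsCoprime a b → IsCoprime p q → act φ (a, b) = (k * p, k * q) →
    max |a| |b| < max |p| |q|

/-- Some point of `P¹(ℚ)` is preperiodic. -/
def HasPreperiodicPoint {d : ℕ} (φ : (Fin (d + 1) → ℤ) × (Fin (d + 1) → ℤ)) : Prop :=
  ∃ v : ℚ × ℚ, v ≠ 0 ∧ ∃ m n : ℕ, m < n ∧ ∃ c : ℚ, c ≠ 0 ∧ (act φ)^[n] v = c • (act φ)^[m] v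

/-- **Almost all rational maps of degree `d ≥ 3` have no rational preperiodic point.**
For every `d ≥ 3`, all but `O(H^(2d + 2 - 1/12))` of the (at least `c H^(2d+2)`) maps of degree `d`
and height at most `H` over `ℚ` increase the height of every point of `P¹(ℚ)`, and maps with this
property have no rational preperiodic point. In particular the proportion of the maps having a
rational preperiodic point tends to zero. -/
theorem result (d : ℕ) (hd : 3 ≤ d) :
    (∃ C : ℝ, ∀ H : ℕ, 1 ≤ H →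
      (({φ | φ ∈ maps d H ∧ ¬ HeightIncreases φ} :
        Set ((Fin (d + 1) → ℤ) × (Fin (d + 1) → ℤ))).ncard : ℝ) ≤
        C * (H : ℝ) ^ ((2 * d + 2 : ℝ) - 1 / 12)) ∧
    (∃ c : ℝ, 0 < c ∧ ∀ H : ℕ, 1 ≤ H → c * (H : ℝ) ^ (2 * d + 2) ≤ ((maps d H).ncard : ℝ)) ∧
    (∀ H : ℕ, ∀ φ ∈ maps d H, HeightIncreases φ → ¬ HasPreperiodicPoint φ) ∧
    Filter.Tendsto (fun H : ℕ => (({φ | φ ∈ maps d H ∧ HasPreperiodicPoint φ} :
        Set ((Fin (d + 1) → ℤ) × (Fin (d + 1) → ℤ))).ncard : ℝ) / ((maps d H).ncard : ℝ))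
      Filter.atTop (nhds 0) := by
  classical
  have hmaps : ∀ H, maps d H = Pool.Agent.W47.AM.maps d H := fun H => rfl
  have h3 : ∀ H : ℕ, ∀ φ ∈ maps d H, HeightIncreases φ → ¬ HasPreperiodicPoint φ :=
    fun H φ hφ hinc => Pool.Agent.W47.AM.no_preperiodic hφ.2.2 hinc
  have h2 : ∃ c : ℝ, 0 < c ∧ ∀ H : ℕ, 1 ≤ H →
      c * (H : ℝ) ^ (2 * d + 2) ≤ ((maps d H).ncard : ℝ) :=
    Pool.Agent.W47.AM.maps_lower (by omega)
  have h1 : ∃ C : ℝ, ∀ H : ℕ, 1 ≤ H →
      (({φ | φ ∈ maps d H ∧ ¬ HeightIncreases φ} :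
        Set ((Fin (d + 1) → ℤ) × (Fin (d + 1) → ℤ))).ncard : ℝ) ≤
        C * (H : ℝ) ^ ((2 * d + 2 : ℝ) - 1 / 12) := by
    obtain ⟨C, hC⟩ := Pool.Agent.W47.AM.final hd
    refine ⟨C, fun H hH => le_trans ?_ (hC H hH)⟩
    have key : ({φ | φ ∈ maps d H ∧ ¬ HeightIncreases φ} :
        Set ((Fin (d + 1) → ℤ) × (Fin (d + 1) → ℤ))).ncard ≤
        ((Pool.Agent.W47.AM.boxw d H).filter
          (fun w => Pool.Agent.W47.AM.NoZero w ∧ Pool.Agent.W47.AM.Bad w)).card := by
      rw [← Set.ncard_coe_finset]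
      refine Set.ncard_le_ncard_of_injOn (fun φ i => (φ.1 i, φ.2 i)) ?_ ?_ (Finset.finite_toSet _)
      · rintro φ ⟨hφ, hinc⟩
        rw [Finset.mem_coe, Finset.mem_filter]
        refine ⟨?_, ?_, ?_⟩
        · rw [Pool.Agent.W47.AM.mem_boxw]
          intro i
          rw [Pool.Agent.W47.AM.mem_bx]
          exact hφ.1 i
        · intro x y e1 e2
          have := hφ.2.2 (x, y) (Prod.ext e1 e2)
          exact ⟨congrArg Prod.fst this, congrArg Prod.snd this⟩
        · unfold HeightIncreases at hinc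
          push Not at hinc
          obtain ⟨a, b, p, q, k, hab, hpq, hact, hle⟩ := hinc
          refine ⟨a, b, hab, (p, q), hpq, ?_, ?_⟩
          · have e1 : ((Pool.Agent.W47.AM.nrm (p, q) : ℕ) : ℤ) = max |p| |q| := by
              simp only [Pool.Agent.W47.AM.nrm, Int.abs_eq_natAbs]
              push_cast; rfl
            have e2 : ((Pool.Agent.W47.AM.nrm (a, b) : ℕ) : ℤ) = max |a| |b| := by
              simp only [Pool.Agent.W47.AM.nrm, Int.abs_eq_natAbs]
              push_cast; rfl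
            have : ((Pool.Agent.W47.AM.nrm (p, q) : ℕ) : ℤ) ≤
                ((Pool.Agent.W47.AM.nrm (a, b) : ℕ) : ℤ) := by rw [e1, e2]; exact hle
            exact_mod_cast this
          · have e1 : form φ.1 (a, b) = k * p := congrArg Prod.fst hact
            have e2 : form φ.2 (a, b) = k * q := congrArg Prod.snd hact
            unfold Pool.Agent.W47.AM.Rel
            have e3 : ∑ i, Pool.Agent.W47.AM.L (p, q) (φ.1 i, φ.2 i) * a ^ (i : ℕ) * b ^ (d - i) =
                q * form φ.1 (a, b) - p * form φ.2 (a, b) := by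
              unfold form Pool.Agent.W47.AM.L
              rw [Finset.mul_sum, Finset.mul_sum, ← Finset.sum_sub_distrib]
              apply Finset.sum_congr rfl
              intro i _
              simp only [Int.cast_id]
              ring
            rw [e3, e1, e2]; ring
      · intro φ _ φ' _ h
        have h' : ∀ i, (φ.1 i, φ.2 i) = (φ'.1 i, φ'.2 i) := fun i => congrFun h i
        exact Prod.ext (funext fun i => congrArg Prod.fst (h' i))
          (funext fun i => congrArg Prod.snd (h' i))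
    exact_mod_cast key
  refine ⟨h1, h2, h3, ?_⟩
  obtain ⟨C, hC⟩ := h1
  obtain ⟨c, hc, hlow⟩ := h2
  have hC0 : 0 ≤ C := by
    have := hC 1 le_rfl
    simp only [Nat.cast_one, Real.one_rpow, mul_one] at this
    exact le_trans (by positivity) this
  have hlim : Filter.Tendsto (fun H : ℕ => C / c * ((H : ℝ) ^ (-(1 / 12) : ℝ))) Filter.atTop
      (nhds 0) := by
    have h4 : Filter.Tendsto (fun x : ℝ => x ^ (-(1 / 12) : ℝ)) Filter.atTop (nhds 0) :=
      tendsto_rpow_neg_atTop (by norm_num)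
    have h5 := (h4.comp tendsto_natCast_atTop_atTop).const_mul (C / c)
    rw [mul_zero] at h5
    exact h5
  refine squeeze_zero' (Filter.Eventually.of_forall fun H => by positivity) ?_ hlim
  filter_upwards [Filter.eventually_ge_atTop 1] with H hH
  have hH' : (0:ℝ) < H := by exact_mod_cast hH
  have hfin : ({φ | φ ∈ maps d H ∧ ¬ HeightIncreases φ} :
      Set ((Fin (d + 1) → ℤ) × (Fin (d + 1) → ℤ))).Finite :=
    (Pool.Agent.W47.AM.maps_finite d H).subset fun φ hφ => hφ.1
  have h6 : (({φ | φ ∈ maps d H ∧ HasPreperiodicPoint φ} :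
        Set ((Fin (d + 1) → ℤ) × (Fin (d + 1) → ℤ))).ncard : ℝ) ≤
      C * (H : ℝ) ^ ((2 * d + 2 : ℝ) - 1 / 12) := by
    refine le_trans ?_ (hC H hH)
    have : ({φ | φ ∈ maps d H ∧ HasPreperiodicPoint φ} :
        Set ((Fin (d + 1) → ℤ) × (Fin (d + 1) → ℤ))).ncard ≤
        ({φ | φ ∈ maps d H ∧ ¬ HeightIncreases φ} :
        Set ((Fin (d + 1) → ℤ) × (Fin (d + 1) → ℤ))).ncard := by
      apply Set.ncard_le_ncard _ hfin
      rintro φ ⟨hφ, hp⟩
      exact ⟨hφ, fun hinc => h3 H φ hφ hinc hp⟩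
    exact_mod_cast this
  have h7 := hlow H hH
  have h8 : (0:ℝ) < c * (H : ℝ) ^ (2 * d + 2) := by positivity
  calc (({φ | φ ∈ maps d H ∧ HasPreperiodicPoint φ} :
        Set ((Fin (d + 1) → ℤ) × (Fin (d + 1) → ℤ))).ncard : ℝ) / ((maps d H).ncard : ℝ)
      ≤ (C * (H : ℝ) ^ ((2 * d + 2 : ℝ) - 1 / 12)) / (c * (H : ℝ) ^ (2 * d + 2)) := by
        apply div_le_div₀ (by positivity) h6 h8 h7
    _ = C / c * ((H : ℝ) ^ (-(1 / 12) : ℝ)) := by
        have e1 : (H : ℝ) ^ ((2 * d + 2 : ℝ) - 1 / 12) =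
            (H : ℝ) ^ (2 * d + 2) * (H : ℝ) ^ (-(1 / 12) : ℝ) := by
          rw [sub_eq_add_neg, Real.rpow_add hH']
          congr 1
          have : (2 * (d:ℝ) + 2) = ((2 * d + 2 : ℕ) : ℝ) := by push_cast; ring
          rw [this, Real.rpow_natCast]
        rw [e1]
        field_simp

end Pool.Agent.Results.MP_c076ed_nt.AlmostAllMaps
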