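import Pool.Agent.W276.AV.Moment
import Pool.Agent.W276.AV.Lower

/-!
# The average number of rational preperiodic points of a rational map
-/

set_option autoImplicit false

namespace Pool.Agent.Results.MP_c076ed_nt.AverageRationalMaps

open Pool.Agent.W276.AV

open Classical in
/-- Let `d` be at least `5`. Up to constants there are `H ^ (2 d + 2)` maps of degree `d` and height
at most `H`, and exactly `H ^ (2 d + 1)` of them, up to constants, have a rational preperiodic
point. All moments of the number of rational preperiodic points of these maps are of order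
`H ^ (2 d + 1)` up to a power of `log H`. -/
theorem result (d : ℕ) (hd : 5 ≤ d) : ∃ C : ℝ, 0 < C ∧ ∀ H : ℕ, 1 ≤ H →
    (H : ℝ) ^ (2 * d + 2) / 2 ≤ ((maps d H).card : ℝ) ∧
    (H : ℝ) ^ (2 * d + 1) / 2 ≤
      (((maps d H).filter (fun f => (prePts f).Nonempty)).card : ℝ) ∧
    (((maps d H).filter (fun f => (prePts f).Nonempty)).card : ℝ) ≤
      C * (H : ℝ) ^ (2 * d + 1) ∧
    (∀ f ∈ maps d H, (prePts f).Finite) ∧
    ∀ k : ℕ, 1 ≤ k →
      (H : ℝ) ^ (2 * d + 1) / 2 ≤ ∑ f ∈ maps d H, ((prePts f).ncard : ℝ) ^ k ∧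
      ∑ f ∈ maps d H, ((prePts f).ncard : ℝ) ^ k ≤
        C ^ k * (H : ℝ) ^ (2 * d + 1) * Real.log (1 + H) ^ k := by
  obtain ⟨K, hK, hup⟩ := upper hd
  obtain ⟨C, hC, hpre⟩ := pre_bound (d := d) (by omega)
  have hA : 1 ≤ max K 1 := le_max_right _ _
  have hB : 1 ≤ max C 1 := le_max_right _ _
  refine ⟨max K 1 * max C 1, by positivity, fun H hH => ?_⟩
  have hHr : (1 : ℝ) ≤ H := by exact_mod_cast hH
  have hl : 0 ≤ Real.log (1 + H) := Real.log_nonneg (by linarith)
  have hfin : ∀ f ∈ maps d H, (prePts f).Finite := fun f hf =>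
    (hpre H hH f (mem_maps.1 hf).2.2.2 (mem_maps.1 hf).1 (mem_maps.1 hf).2.1).1
  have hcount : (((maps d H).filter (fun f => (prePts f).Nonempty)).card : ℝ) ≤
      K * (H : ℝ) ^ (2 * d + 1) := by
    convert hup H hH
  have hlow : (H : ℝ) ^ (2 * d + 1) / 2 ≤
      (((maps d H).filter (fun f => (prePts f).Nonempty)).card : ℝ) := by
    convert card_bad_ge hd hH
  refine ⟨card_maps_ge hd hH, hlow, hcount.trans ?_, hfin, fun k hk => ⟨?_, ?_⟩⟩
  · apply mul_le_mul_of_nonneg_right _ (by positivity)
    calc K ≤ max K 1 := le_max_left _ _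
      _ ≤ max K 1 * max C 1 := le_mul_of_one_le_right (by positivity) hB
  · refine hlow.trans ?_
    rw [Finset.card_eq_sum_ones]
    push_cast
    refine le_trans (Finset.sum_le_sum (g := fun f => ((prePts f).ncard : ℝ) ^ k) ?_)
      (Finset.sum_le_sum_of_subset_of_nonneg (Finset.filter_subset _ _)
        (fun f _ _ => by positivity))
    intro f hf
    rw [Finset.mem_filter] at hf
    have h1 : 1 ≤ (prePts f).ncard :=
      (Set.ncard_pos (hfin f hf.1)).2 hf.2
    exact one_le_pow₀ (by exact_mod_cast h1)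
  · have h1 : ∑ f ∈ maps d H, ((prePts f).ncard : ℝ) ^ k =
        ∑ f ∈ (maps d H).filter (fun f => (prePts f).Nonempty), ((prePts f).ncard : ℝ) ^ k := by
      symm
      apply Finset.sum_subset (Finset.filter_subset _ _)
      intro f hf hf'
      have h2 : ¬ (prePts f).Nonempty := fun h => hf' (Finset.mem_filter.2 ⟨hf, h⟩)
      rw [Set.not_nonempty_iff_eq_empty.1 h2]
      simp
      omega
    rw [h1]
    have h2 : ∀ f ∈ (maps d H).filter (fun f => (prePts f).Nonempty),
        ((prePts f).ncard : ℝ) ^ k ≤ (C * Real.log (1 + H)) ^ k := by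
      intro f hf
      rw [Finset.mem_filter, mem_maps] at hf
      exact pow_le_pow_left₀ (by positivity)
        (hpre H hH f hf.1.2.2.2 hf.1.1 hf.1.2.1).2 k
    refine (Finset.sum_le_sum h2).trans ?_
    rw [Finset.sum_const, nsmul_eq_mul, mul_pow]
    calc _ ≤ (K * (H : ℝ) ^ (2 * d + 1)) * (C ^ k * Real.log (1 + H) ^ k) :=
          mul_le_mul_of_nonneg_right hcount (by positivity)
      _ = K * C ^ k * ((H : ℝ) ^ (2 * d + 1) * Real.log (1 + H) ^ k) := by ring
      _ ≤ (max K 1 * max C 1) ^ k * ((H : ℝ) ^ (2 * d + 1) * Real.log (1 + H) ^ k) := by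
          apply mul_le_mul_of_nonneg_right _ (by positivity)
          rw [mul_pow]
          apply mul_le_mul _ (pow_le_pow_left₀ hC.le (le_max_left _ _) k) (by positivity)
            (by positivity)
          exact (le_max_left _ _).trans (le_self_pow₀ hA (by omega))
      _ = _ := by ring

end Pool.Agent.Results.MP_c076ed_nt.AverageRationalMaps
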