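import Pool.Agent.W276.Exact
import Pool.Agent.W276.Link

set_option autoImplicit false

/-!
# Rational maps over `ℚ` with many rational preperiodic points

There is `c > 0` such that for every large `d` some rational map of degree `d` over `ℚ` has at
least `2 d + c d^(1/3)` rational preperiodic points.

Outline.  Put `k` of the order of `d^(1/3)` and look at the linear forms `a Y - b X`, with `(a, b)`
coprime, `k B < a ≤ 2 k B`, `1 ≤ b ≤ B`.  Their values at the `k + 1` points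
`0, 1, ..., k - 1, ∞` are integers of size at most `2 k B`, so that the product of the forms of a
set `T` takes only few values (as a function of `T`) at these points.  An intersection theorem of
Frankl and Wilson for words gives, for every prime `p` not too small, two disjoint sets `T`, `T'`
with `p` elements such that the products of the forms of `T` and of `T'` agree at the `k + 1`
points.  Gluing such pairs for several primes `p` gives two disjoint sets with exactly `d`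
elements, as every large `d` is a sum of at most five primes of the order of `d`.  The map
`[F_T : F_T']` sends the `k + 1` points to `1`, and the `2 d` zeros and poles to `0` and `∞`, which
are themselves sent to `1`; and `1` is fixed.
-/

namespace Pool.Agent.Results.MP_c076ed_nt.CubeRootExcessEveryDegree

open Finset MvPolynomial Pool.Agent.W276.Cop Pool.Agent.W276.Grow

/-- The self-map of `ℚ²` given by two binary forms `F`, `G`. -/
noncomputable def homMap (F G : MvPolynomial (Fin 2) ℚ) (w : Fin 2 → ℚ) : Fin 2 → ℚ :=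
  ![MvPolynomial.eval w F, MvPolynomial.eval w G]

/-- `F`, `G` are binary forms of degree `d` over `ℚ` without common zero in
`ℙ¹(AlgebraicClosure ℚ)`: they define an endomorphism of `ℙ¹` of degree `d` over `ℚ`. -/
def IsEndo (d : ℕ) (F G : MvPolynomial (Fin 2) ℚ) : Prop :=
  F.IsHomogeneous d ∧ G.IsHomogeneous d ∧
    ∀ x : Fin 2 → AlgebraicClosure ℚ, x ≠ 0 →
      ¬ (MvPolynomial.aeval x F = 0 ∧ MvPolynomial.aeval x G = 0)

/-- the point `P` of `ℙ¹(ℚ)` is preperiodic for the endomorphism `[F : G]` -/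
def IsPreper (F G : MvPolynomial (Fin 2) ℚ) (P : Projectivization ℚ (Fin 2 → ℚ)) : Prop :=
  ∃ v : Fin 2 → ℚ, ∃ hv : v ≠ 0, Projectivization.mk ℚ v hv = P ∧
    ∃ m n : ℕ, m < n ∧ ∃ c : ℚ, c ≠ 0 ∧ (homMap F G)^[n] v = c • (homMap F G)^[m] v

/-- the product of the linear forms `a Y - b X`, `(a,b) ∈ T` -/
noncomputable def form (T : Finset (ℕ × ℕ)) : MvPolynomial (Fin 2) ℚ :=
  ∏ t ∈ T, (C (t.1 : ℚ) * X 1 - C (t.2 : ℚ) * X 0)

lemma form_hom (T : Finset (ℕ × ℕ)) : (form T).IsHomogeneous T.card := by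
  have h := MvPolynomial.IsHomogeneous.prod T
    (fun t : ℕ × ℕ => (C (t.1 : ℚ) * X 1 - C (t.2 : ℚ) * X 0 : MvPolynomial (Fin 2) ℚ))
    (fun _ => 1) (fun t _ => by
      refine MvPolynomial.IsHomogeneous.sub ?_ ?_
      · have := (MvPolynomial.isHomogeneous_C (Fin 2) (t.1 : ℚ)).mul
          (MvPolynomial.isHomogeneous_X ℚ (1 : Fin 2))
        simpa using this
      · have := (MvPolynomial.isHomogeneous_C (Fin 2) (t.2 : ℚ)).mul
          (MvPolynomial.isHomogeneous_X ℚ (0 : Fin 2))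
        simpa using this)
  simpa [form] using h

lemma eval_form (T : Finset (ℕ × ℕ)) (w : Fin 2 → ℚ) :
    MvPolynomial.eval w (form T) = ∏ t ∈ T, ((t.1:ℚ) * w 1 - (t.2:ℚ) * w 0) := by
  simp [form, map_prod]

lemma aeval_form {A : Type*} [CommRing A] [Algebra ℚ A] (T : Finset (ℕ × ℕ)) (w : Fin 2 → A) :
    MvPolynomial.aeval w (form T) = ∏ t ∈ T, ((t.1:A) * w 1 - (t.2:A) * w 0) := by
  simp [form, map_prod]

lemma eval_form_smul (T : Finset (ℕ × ℕ)) (c : ℚ) (w : Fin 2 → ℚ) :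
    MvPolynomial.eval (c • w) (form T) = c ^ T.card * MvPolynomial.eval w (form T) := by
  rw [eval_form, eval_form, ← Finset.prod_const, ← Finset.prod_mul_distrib]
  apply Finset.prod_congr rfl
  intro t _
  simp only [Pi.smul_apply, smul_eq_mul]
  ring

section
variable {k B : ℕ} {T T' : Finset (ℕ × ℕ)}

lemma homMap_smul (hc : T.card = T'.card) (c : ℚ) (w : Fin 2 → ℚ) :
    homMap (form T) (form T') (c • w) = c ^ T.card • homMap (form T) (form T') w := by
  unfold homMap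
  rw [eval_form_smul, eval_form_smul, ← hc]
  ext i
  fin_cases i <;> simp

lemma det_ne {a b a' b' : ℕ} (h : Nat.Coprime a b) (h' : Nat.Coprime a' b')
    (hne : (a, b) ≠ (a', b')) : (a:ℤ) * b' - (a':ℤ) * b ≠ 0 := by
  intro h0
  have h1 : a * b' = a' * b := by
    have : (a:ℤ) * b' = (a':ℤ) * b := by linarith
    exact_mod_cast this
  apply hne
  have h2 : a ∣ a' := by
    have : a ∣ a' * b := ⟨b', h1.symm⟩
    exact h.dvd_of_dvd_mul_right this
  have h3 : a' ∣ a := by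
    have : a' ∣ a * b' := ⟨b, h1⟩
    exact h'.dvd_of_dvd_mul_right this
  have h4 : a = a' := Nat.dvd_antisymm h2 h3
  have h5 : b ∣ b' := by
    have : b ∣ b' * a := ⟨a', by rw [mul_comm b' a, h1, mul_comm]⟩
    exact h.symm.dvd_of_dvd_mul_right this
  have h6 : b' ∣ b := by
    have : b' ∣ b * a' := ⟨a, by rw [mul_comm b a', ← h1, mul_comm]⟩
    exact h'.symm.dvd_of_dvd_mul_right this
  rw [h4, Nat.dvd_antisymm h5 h6]

/-- no common zero -/
lemma isEndo (hR : IsRel k B T T') : IsEndo T.card (form T) (form T') := by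
  refine ⟨form_hom T, by rw [hR.card]; exact form_hom T', ?_⟩
  rintro x hx ⟨h1, h2⟩
  rw [aeval_form, Finset.prod_eq_zero_iff] at h1 h2
  obtain ⟨t, ht, h1⟩ := h1
  obtain ⟨s, hs, h2⟩ := h2
  have hne : (t.1, t.2) ≠ (s.1, s.2) := by
    intro h
    have : t = s := h
    exact Finset.disjoint_left.1 hR.disj ht (this ▸ hs)
  have hd := det_ne (mem_pool (hR.sub ht)).2.2.2.2 (mem_pool (hR.sub' hs)).2.2.2.2 hne
  have hd' : (((t.1:ℤ) * s.2 - (s.1:ℤ) * t.2 : ℤ) : AlgebraicClosure ℚ) ≠ 0 := by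
    exact_mod_cast hd
  push_cast at hd'
  have e0 : ((t.1 : AlgebraicClosure ℚ) * s.2 - (s.1 : AlgebraicClosure ℚ) * t.2) * x 0 = 0 := by
    linear_combination (s.1 : AlgebraicClosure ℚ) * h1 - (t.1 : AlgebraicClosure ℚ) * h2
  have e1 : ((t.1 : AlgebraicClosure ℚ) * s.2 - (s.1 : AlgebraicClosure ℚ) * t.2) * x 1 = 0 := by
    linear_combination (s.2 : AlgebraicClosure ℚ) * h1 - (t.2 : AlgebraicClosure ℚ) * h2
  apply hx
  ext i
  fin_cases i
  · exact (mul_eq_zero.1 e0).resolve_left hd'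
  · exact (mul_eq_zero.1 e1).resolve_left hd'


lemma card_pos_of_rel (hT : 1 ≤ T.card) : T.card ≠ 0 := by omega

lemma eval_small (hsub : T ⊆ pool k B) {j : ℕ} (hj : j < k) :
    MvPolynomial.eval ![(j:ℚ), 1] (form T) = ((∏ t ∈ T, g k j t : ℕ) : ℚ) := by
  rw [eval_form]
  push_cast
  apply Finset.prod_congr rfl
  intro t ht
  have h := lt_of_mem (hsub ht) hj.le
  simp only [g, if_pos hj]
  rw [Nat.cast_sub h.le]
  push_cast
  simp [Matrix.cons_val_zero, Matrix.cons_val_one]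
  ring

lemma prod_g_pos (hk : 1 ≤ k) (hsub : T ⊆ pool k B) (i : ℕ) : 0 < ∏ t ∈ T, g k i t :=
  Finset.prod_pos (fun t ht => (g_bound hk (hsub ht) i).1)

lemma phi_E (hk : 1 ≤ k) (hR : IsRel k B T T') {j : ℕ} (hj : j < k) :
    ∃ c : ℚ, c ≠ 0 ∧ homMap (form T) (form T') ![(j:ℚ), 1] = c • ![1, 1] := by
  refine ⟨((∏ t ∈ T, g k j t : ℕ) : ℚ), ?_, ?_⟩
  · exact_mod_cast (prod_g_pos hk hR.sub j).ne'
  · unfold homMap
    rw [eval_small hR.sub hj, eval_small hR.sub' hj, ← hR.prod j (by omega)]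
    ext i
    fin_cases i <;> simp

lemma phi_inf (hk : 1 ≤ k) (hR : IsRel k B T T') :
    ∃ c : ℚ, c ≠ 0 ∧ homMap (form T) (form T') ![1, 0] = c • ![1, 1] := by
  have h : ∀ U ⊆ pool k B, MvPolynomial.eval ![(1:ℚ), 0] (form U) =
      (-1) ^ U.card * ((∏ t ∈ U, g k k t : ℕ) : ℚ) := by
    intro U _
    rw [eval_form, ← Finset.prod_const]
    push_cast
    rw [← Finset.prod_mul_distrib]
    apply Finset.prod_congr rfl
    intro t _
    simp [g]
  refine ⟨(-1) ^ T.card * ((∏ t ∈ T, g k k t : ℕ) : ℚ), ?_, ?_⟩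
  · apply mul_ne_zero
    · exact pow_ne_zero _ (by norm_num)
    · exact_mod_cast (prod_g_pos hk hR.sub k).ne'
  · unfold homMap
    rw [h T hR.sub, h T' hR.sub', ← hR.card, ← hR.prod k (by omega)]
    ext i
    fin_cases i <;> simp

lemma eval_ne {s : ℕ × ℕ} (hs : Nat.Coprime s.1 s.2) (hsub : T ⊆ pool k B) (hsT : s ∉ T) :
    MvPolynomial.eval ![(s.1:ℚ), (s.2:ℚ)] (form T) ≠ 0 := by
  rw [eval_form, Finset.prod_ne_zero_iff]
  intro t ht h0
  have hne : (t.1, t.2) ≠ (s.1, s.2) := by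
    intro h
    have : t = s := h
    exact hsT (this ▸ ht)
  have hd := det_ne (mem_pool (hsub ht)).2.2.2.2 hs hne
  apply hd
  simp only [Matrix.cons_val_zero, Matrix.cons_val_one] at h0
  have : (((t.1:ℤ) * s.2 - (s.1:ℤ) * t.2 : ℤ) : ℚ) = 0 := by
    push_cast
    linear_combination h0
  exact_mod_cast this

lemma eval_eq_zero {s : ℕ × ℕ} (hsT : s ∈ T) :
    MvPolynomial.eval ![(s.1:ℚ), (s.2:ℚ)] (form T) = 0 := by
  rw [eval_form]
  apply Finset.prod_eq_zero hsT
  simp only [Matrix.cons_val_zero, Matrix.cons_val_one]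
  ring

lemma phi_T (hR : IsRel k B T T') {s : ℕ × ℕ} (hs : s ∈ T) :
    ∃ c : ℚ, c ≠ 0 ∧ homMap (form T) (form T') ![(s.1:ℚ), (s.2:ℚ)] = c • ![0, 1] := by
  refine ⟨_, eval_ne (mem_pool (hR.sub hs)).2.2.2.2 hR.sub'
    (Finset.disjoint_left.1 hR.disj hs), ?_⟩
  unfold homMap
  rw [eval_eq_zero hs]
  ext i
  fin_cases i <;> simp

lemma phi_T' (hR : IsRel k B T T') {s : ℕ × ℕ} (hs : s ∈ T') :
    ∃ c : ℚ, c ≠ 0 ∧ homMap (form T) (form T') ![(s.1:ℚ), (s.2:ℚ)] = c • ![1, 0] := by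
  refine ⟨_, eval_ne (mem_pool (hR.sub' hs)).2.2.2.2 hR.sub
    (fun h => Finset.disjoint_left.1 hR.disj h hs), ?_⟩
  unfold homMap
  rw [eval_eq_zero hs]
  ext i
  fin_cases i <;> simp

/-- a vector whose orbit meets the line of `(1,1)` gives a preperiodic point -/
lemma preper_of (hk : 2 ≤ k) (hR : IsRel k B T T') {v : Fin 2 → ℚ} (hv : v ≠ 0) {m : ℕ} {c : ℚ}
    (hc : c ≠ 0) (h : (homMap (form T) (form T'))^[m] v = c • ![1, 1]) :
    IsPreper (form T) (form T') (Projectivization.mk ℚ v hv) := by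
  obtain ⟨c1, hc1, h1⟩ := phi_E (by omega) hR (show 1 < k by omega)
  rw [Nat.cast_one] at h1
  refine ⟨v, hv, rfl, m, m+1, by omega, c ^ T.card * c1 * c⁻¹, ?_, ?_⟩
  · exact mul_ne_zero (mul_ne_zero (pow_ne_zero _ hc) hc1) (inv_ne_zero hc)
  · rw [Function.iterate_succ_apply', h, homMap_smul hR.card, h1, smul_smul, smul_smul,
      mul_assoc, mul_assoc, inv_mul_cancel₀ hc, mul_one]

lemma ne_zero_of_coprime {t : ℕ × ℕ} (h : Nat.Coprime t.1 t.2) :
    (![(t.1:ℚ), (t.2:ℚ)] : Fin 2 → ℚ) ≠ 0 := by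
  intro h0
  have h1 : (t.1:ℚ) = 0 := by simpa using congrFun h0 0
  have h2 : (t.2:ℚ) = 0 := by simpa using congrFun h0 1
  have h3 : t.1 = 0 := by exact_mod_cast h1
  have h4 : t.2 = 0 := by exact_mod_cast h2
  rw [h3, h4] at h
  norm_num at h

lemma preper_T (hk : 2 ≤ k) (hR : IsRel k B T T') {s : ℕ × ℕ} (hs : s ∈ T)
    (hv : (![(s.1:ℚ), (s.2:ℚ)] : Fin 2 → ℚ) ≠ 0) :
    IsPreper (form T) (form T') (Projectivization.mk ℚ _ hv) := by
  obtain ⟨c, hc, h⟩ := phi_T hR hs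
  obtain ⟨c0, hc0, h0⟩ := phi_E (by omega) hR (show 0 < k by omega)
  rw [Nat.cast_zero] at h0
  refine preper_of hk hR hv (m := 2) (mul_ne_zero (pow_ne_zero T.card hc) hc0) ?_
  rw [Function.iterate_succ_apply', Function.iterate_one, h, homMap_smul hR.card, h0, smul_smul]

lemma preper_T' (hk : 2 ≤ k) (hR : IsRel k B T T') {s : ℕ × ℕ} (hs : s ∈ T')
    (hv : (![(s.1:ℚ), (s.2:ℚ)] : Fin 2 → ℚ) ≠ 0) :
    IsPreper (form T) (form T') (Projectivization.mk ℚ _ hv) := by
  obtain ⟨c, hc, h⟩ := phi_T' hR hs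
  obtain ⟨c0, hc0, h0⟩ := phi_inf (by omega) hR
  refine preper_of hk hR hv (m := 2) (mul_ne_zero (pow_ne_zero T.card hc) hc0) ?_
  rw [Function.iterate_succ_apply', Function.iterate_one, h, homMap_smul hR.card, h0, smul_smul]

lemma preper_E (hk : 2 ≤ k) (hR : IsRel k B T T') {j : ℕ} (hj : j < k)
    (hv : (![(j:ℚ), 1] : Fin 2 → ℚ) ≠ 0) :
    IsPreper (form T) (form T') (Projectivization.mk ℚ _ hv) := by
  obtain ⟨c, hc, h⟩ := phi_E (by omega) hR hj
  exact preper_of hk hR hv (m := 1) hc (by rw [Function.iterate_one]; exact h)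

lemma preper_inf (hk : 2 ≤ k) (hR : IsRel k B T T')
    (hv : (![1, 0] : Fin 2 → ℚ) ≠ 0) :
    IsPreper (form T) (form T') (Projectivization.mk ℚ _ hv) := by
  obtain ⟨c, hc, h⟩ := phi_inf (by omega) hR
  exact preper_of hk hR hv (m := 1) hc (by rw [Function.iterate_one]; exact h)

/-- the point of `ℙ¹(ℚ)` with coordinates `(a : b)` -/
noncomputable def pt (t : ℕ × ℕ) : Projectivization ℚ (Fin 2 → ℚ) :=
  if h : Nat.Coprime t.1 t.2 then Projectivization.mk ℚ _ (ne_zero_of_coprime h)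
  else Projectivization.mk ℚ _ (ne_zero_of_coprime (t := (1,1)) (by norm_num))

lemma pt_inj {s t : ℕ × ℕ} (hs : Nat.Coprime s.1 s.2) (ht : Nat.Coprime t.1 t.2)
    (h : pt s = pt t) : s = t := by
  unfold pt at h
  rw [dif_pos hs, dif_pos ht, Projectivization.mk_eq_mk_iff'] at h
  obtain ⟨a, ha⟩ := h
  have h0 : a * (t.1:ℚ) = s.1 := by simpa using congrFun ha 0
  have h1 : a * (t.2:ℚ) = s.2 := by simpa using congrFun ha 1
  by_contra hne
  have hne' : (s.1, s.2) ≠ (t.1, t.2) := fun h => hne h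
  apply det_ne hs ht hne'
  have : (((s.1:ℤ) * t.2 - (t.1:ℤ) * s.2 : ℤ) : ℚ) = 0 := by
    push_cast
    rw [← h0, ← h1]
    ring
  exact_mod_cast this

end

/-- from a relation to a map -/
lemma exists_map {k B : ℕ} (hk : 2 ≤ k) (hB : 1 ≤ B) {T T' : Finset (ℕ × ℕ)}
    (hR : IsRel k B T T') :
    ∃ F G : MvPolynomial (Fin 2) ℚ, IsEndo T.card F G ∧
        ∃ S : Finset (Projectivization ℚ (Fin 2 → ℚ)),
          (∀ P ∈ S, IsPreper F G P) ∧ 2 * T.card + k + 1 ≤ S.card := by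
  classical
  refine ⟨form T, form T', isEndo hR, ?_⟩
  set E : Finset (ℕ × ℕ) := insert (1, 0) ((Finset.range k).image (fun j => (j, 1))) with hE
  have hcopE : ∀ t ∈ E, Nat.Coprime t.1 t.2 := by
    intro t ht
    rw [hE, Finset.mem_insert, Finset.mem_image] at ht
    rcases ht with rfl | ⟨j, _, rfl⟩
    · exact Nat.coprime_one_left 0
    · exact Nat.coprime_one_right j
  have hcop : ∀ t ∈ T ∪ T' ∪ E, Nat.Coprime t.1 t.2 := by
    intro t ht
    rw [Finset.mem_union, Finset.mem_union] at ht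
    rcases ht with (ht | ht) | ht
    · exact (mem_pool (hR.sub ht)).2.2.2.2
    · exact (mem_pool (hR.sub' ht)).2.2.2.2
    · exact hcopE t ht
  have hEcard : E.card = k + 1 := by
    rw [hE, Finset.card_insert_of_notMem, Finset.card_image_of_injective, Finset.card_range]
    · intro a b hab
      exact (Prod.mk.inj hab).1
    · intro h
      obtain ⟨j, _, hj⟩ := Finset.mem_image.1 h
      exact absurd (Prod.mk.inj hj).2 (by norm_num)
  have hdisE : Disjoint (T ∪ T') E := by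
    rw [Finset.disjoint_left]
    intro t ht htE
    have htp : t ∈ pool k B := by
      rw [Finset.mem_union] at ht
      rcases ht with ht | ht
      · exact hR.sub ht
      · exact hR.sub' ht
    obtain ⟨a1, a2, a3, a4, a5⟩ := mem_pool htp
    rw [hE, Finset.mem_insert, Finset.mem_image] at htE
    rcases htE with rfl | ⟨j, hj, rfl⟩
    · omega
    · have hj' := Finset.mem_range.1 hj
      have : k ≤ k * B := Nat.le_mul_of_pos_right k (by omega)
      simp only at a1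
      omega
  refine ⟨(T ∪ T' ∪ E).image pt, ?_, ?_⟩
  · intro P hP
    obtain ⟨t, ht, rfl⟩ := Finset.mem_image.1 hP
    have htc := hcop t ht
    unfold pt
    rw [dif_pos htc]
    rw [Finset.mem_union, Finset.mem_union] at ht
    rcases ht with (ht | ht) | ht
    · exact preper_T (by omega) hR ht _
    · exact preper_T' (by omega) hR ht _
    · rw [hE, Finset.mem_insert, Finset.mem_image] at ht
      rcases ht with rfl | ⟨j, hj, rfl⟩
      · have h := preper_inf (by omega) hR (by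
          intro h0
          have := congrFun h0 0
          simp at this)
        convert h using 2 <;> simp
      · have h := preper_E (by omega) hR (Finset.mem_range.1 hj) (by
          intro h0
          have := congrFun h0 1
          simp at this)
        convert h using 2 <;> simp
  · rw [Finset.card_image_of_injOn]
    · rw [Finset.card_union_of_disjoint hdisE, Finset.card_union_of_disjoint hR.disj,
        ← hR.card, hEcard]
      omega
    · intro s hs t ht hst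
      exact pt_inj (hcop s hs) (hcop t ht) hst

/-- the choice of the parameters -/
lemma params (c : ℝ) (hc : 0 < c) (hc1 : c ≤ 1) (d : ℕ) (hd : 1 ≤ d)
    (k : ℕ) (hk : 2 ≤ k) (hkd : (k:ℝ)^3 ≤ (c/200)^3 * d) :
    ∃ B : ℕ, 1 ≤ B ∧ 2 * d ≤ (2*(k*B))^2 ∧ 2*d + 16*d ≤ (pool k B).card ∧
      ((30 * (k+1) * (2*(k*B)) : ℕ) : ℝ) ≤ c * d := by
  have hd0 : (0:ℝ) < d := by exact_mod_cast hd
  have hk0 : (2:ℝ) ≤ k := by exact_mod_cast hk
  have hkpos : (0:ℝ) < k := by linarith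
  set y : ℝ := Real.sqrt (72 * d / k) with hy
  have hkd' : (k:ℝ) ≤ d := by
    have h1 : (k:ℝ) * 1 ≤ (k:ℝ) * k^2 := mul_le_mul_of_nonneg_left (by nlinarith) hkpos.le
    have h2 : (c/200)^3 ≤ 1 := by
      apply pow_le_one₀ (by positivity)
      linarith
    nlinarith
  have hy2 : y^2 = 72 * d / k := Real.sq_sqrt (by positivity)
  have hy2' : y^2 * k = 72 * d := by
    rw [hy2]; field_simp
  have hy1 : 1 ≤ y := by
    rw [hy, Real.one_le_sqrt, le_div_iff₀ hkpos]
    linarith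
  refine ⟨⌈y⌉₊, ?_, ?_, ?_, ?_⟩
  · exact Nat.one_le_ceil_iff.2 (by linarith)
  · have h1 : y ≤ (⌈y⌉₊ : ℝ) := Nat.le_ceil y
    have h2 : y^2 ≤ (⌈y⌉₊ : ℝ)^2 := pow_le_pow_left₀ (by linarith) h1 2
    have h3 : ((2 * d : ℕ) : ℝ) ≤ (((2*(k*⌈y⌉₊))^2 : ℕ) : ℝ) := by
      push_cast
      have h4 : y^2 * k * k ≤ (⌈y⌉₊ : ℝ)^2 * k * k := by gcongr
      rw [hy2'] at h4
      nlinarith
    exact_mod_cast h3
  · have h0 : 1 ≤ ⌈y⌉₊ := Nat.one_le_ceil_iff.2 (by linarith)
    have h1 : y ≤ (⌈y⌉₊ : ℝ) := Nat.le_ceil y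
    have h2 : y^2 ≤ (⌈y⌉₊ : ℝ)^2 := pow_le_pow_left₀ (by linarith) h1 2
    have h3 := card_pool k ⌈y⌉₊ h0
    have h4 : ((2*d + 16*d : ℕ) : ℝ) ≤ ((pool k ⌈y⌉₊).card : ℝ) := by
      push_cast
      nlinarith
    exact_mod_cast h4
  · have h1 : (⌈y⌉₊ : ℝ) ≤ 2 * y := by
      have := Nat.ceil_lt_add_one (show 0 ≤ y by linarith)
      linarith
    push_cast
    have h2 : 30 * ((k:ℝ)+1) * (2 * (k * (⌈y⌉₊ : ℝ))) ≤ 240 * (k:ℝ)^2 * y := by
      have h3 : (k:ℝ) + 1 ≤ 2 * k := by linarith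
      have h4 : 30 * ((k:ℝ)+1) * (2 * (k * (⌈y⌉₊ : ℝ))) ≤ 30 * (2 * k) * (2 * (k * (2 * y))) := by
        gcongr
      nlinarith
    refine h2.trans ?_
    apply abs_le_of_sq_le_sq' _ (by positivity) |>.2
    have h3 : (240 * (k:ℝ)^2 * y)^2 = 57600 * 72 * (k:ℝ)^3 * d := by
      have : (240 * (k:ℝ)^2 * y)^2 = 57600 * (k:ℝ)^3 * (y^2 * k) := by ring
      rw [this, hy2']; ring
    rw [h3]
    have h4 : 57600 * 72 * (k:ℝ)^3 * d ≤ 57600 * 72 * ((c/200)^3 * d) * d := by gcongr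
    refine h4.trans ?_
    have h5 : c^3 ≤ c^2 := pow_le_pow_of_le_one hc.le hc1 (by norm_num)
    have h6 : 57600 * 72 * ((c/200)^3 * (d:ℝ)) * d = (57600 * 72 / 8000000) * c^3 * d^2 := by ring
    rw [h6, mul_pow]
    have h7 : (57600 * 72 / 8000000 : ℝ) * c^3 ≤ c^2 := by nlinarith [pow_pos hc 3]
    exact mul_le_mul_of_nonneg_right h7 (by positivity)

/-- **Rational maps with many rational preperiodic points, in every large degree.**  There is
`c > 0` such that for all sufficiently large `d` some endomorphism of `ℙ¹` of degree `d` over `ℚ`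
has at least `2 d + c d^(1/3)` rational preperiodic points. -/
theorem result : ∃ c : ℝ, 0 < c ∧ ∀ᶠ d : ℕ in Filter.atTop,
    ∃ F G : MvPolynomial (Fin 2) ℚ, IsEndo d F G ∧
      ∃ S : Finset (Projectivization ℚ (Fin 2 → ℚ)),
        (∀ P ∈ S, IsPreper F G P) ∧ 2 * (d : ℝ) + c * (d : ℝ) ^ (1 / 3 : ℝ) ≤ (S.card : ℝ) := by
  obtain ⟨D0, hD0⟩ := Pool.Agent.W276.Gold.five_primes Pool.Agent.W276.Link.many
  set c : ℝ := 1/100000 with hcdef
  refine ⟨c/200, by norm_num [hcdef], ?_⟩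
  have ht : Filter.Tendsto (fun d : ℕ => (c/200) * (d:ℝ) ^ (1/3 : ℝ)) Filter.atTop Filter.atTop := by
    apply Filter.Tendsto.const_mul_atTop (by norm_num [hcdef])
    exact (tendsto_rpow_atTop (by norm_num)).comp tendsto_natCast_atTop_atTop
  filter_upwards [ht.eventually_ge_atTop 2, Filter.eventually_ge_atTop (max D0 1)] with d h1 h2
  have hd1 : 1 ≤ d := (le_max_right _ _).trans h2
  have hdD : D0 ≤ d := (le_max_left _ _).trans h2
  set x : ℝ := (c/200) * (d:ℝ) ^ (1/3 : ℝ) with hx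
  set k := ⌊x⌋₊ with hk
  have hk2 : 2 ≤ k := Nat.le_floor (by exact_mod_cast h1)
  have hkx : (k:ℝ) ≤ x := Nat.floor_le (by linarith)
  have hxk : x < k + 1 := Nat.lt_floor_add_one x
  have hx3 : x^3 = (c/200)^3 * d := by
    rw [hx, mul_pow, ← Real.rpow_natCast ((d:ℝ)^(1/3:ℝ)), ← Real.rpow_mul (Nat.cast_nonneg _)]
    norm_num
  have hk3 : (k:ℝ)^3 ≤ (c/200)^3 * d := by
    rw [← hx3]
    exact pow_le_pow_left₀ (Nat.cast_nonneg _) hkx 3
  obtain ⟨B, hB1, hB2, hB3, hB4⟩ := params c (by norm_num [hcdef]) (by norm_num [hcdef]) d hd1 k hk2 hk3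
  obtain ⟨L, hL, hLs⟩ := hD0 d hdD
  obtain ⟨T, T', hR, hT⟩ := Pool.Agent.W276.Exact.exists_of_list (by omega) hB1 hB2 hB3 L (by
    intro p hp
    obtain ⟨a1, a2, a3⟩ := hL p hp
    refine ⟨a1, ?_, a3⟩
    have h3 : ((30 * (k+1) * (2*(k*B)) : ℕ) : ℝ) ≤ (p:ℝ) := by
      refine hB4.trans ?_
      rw [hcdef]
      linarith
    exact_mod_cast h3) hLs.le
  rw [hLs] at hT
  obtain ⟨F, G, hE, S, hS, hc⟩ := exists_map hk2 hB1 hR
  rw [hT] at hE hc
  refine ⟨F, G, hE, S, hS, ?_⟩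
  have h5 : ((2 * d + k + 1 : ℕ) : ℝ) ≤ (S.card : ℝ) := by exact_mod_cast hc
  push_cast at h5
  linarith

end Pool.Agent.Results.MP_c076ed_nt.CubeRootExcessEveryDegree
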